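import Pool.Graph.R_pool_sql_team_ae5b0c61.H61.Boot2

/-!
# Bootstrap percolation on the hypercube with a general threshold
-/

set_option autoImplicit false
open Finset Filter Topology

namespace Pool.Agent.KS6_21.HB
open Pool.Agent.H61.Boot

variable {n : ℕ}

/-- The lower bound, for all `p` below `1 / 2 - δ`. -/
lemma lower' {p R ε σ δ : ℝ} (h0 : 0 ≤ p) (h1 : p ≤ 1 / 2 - δ) (hδ : 0 < δ) (hε : 0 < ε)
    (hε1 : ε ≤ 1) (hR : 0 ≤ R)
    (hp : p * n ≤ (1 - ε) * R) {k : ℕ} (hk0 : 1 ≤ k) (hn : 1 ≤ n) (hk : (k : ℝ) ≤ ε * R / 4)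
    (hσ : 1 ≤ σ) (h : σ * (k + 1) ≤ ε * R / (4 * k) - k) (hs : (n : ℝ) ≤ σ ^ k)
    (hq : (n : ℝ) ^ k * Real.exp (-(ε ^ 2 / (16 * (k + 1)) * R)) ≤ δ / (4 * k)) :
    Pr p (Perc (n := n) R) < 1 / 2 := by
  classical
  have h1' : p ≤ 1 := by linarith
  have hδ1 : δ ≤ 1 / 2 := by linarith
  have k1 : (1 : ℝ) ≤ k := by exact_mod_cast hk0
  obtain ⟨q, hq'⟩ : ∃ q, q = (n : ℝ) ^ k * Real.exp (-(ε ^ 2 / (16 * (k + 1)) * R)) := ⟨_, rfl⟩
  have q0 : 0 ≤ q := by rw [hq']; positivity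
  rw [← hq'] at hq
  have q1 : k * q ≤ δ / 4 := by
    rw [le_div_iff₀ (by positivity)] at hq; linarith
  have q2 : q ≤ δ / 4 := by nlinarith
  set v0 : V n := fun _ => false
  set E : V n → ℕ → ℕ → Finset (V n) → Prop := fun v j s A =>
    ∃ T ∈ powersetCard s (univ.filter fun y : V n => hammingDist y v = j),
      ∀ u ∈ T, R - ε * R / 4 ≤ (dg A u : ℝ) with hE
  have b1 : ∀ v j s, j ≤ k → Pr p (E v j s) ≤ q ^ s := fun v j s hj => by
    rw [hq']; exact up_all h0 h1' hε hε1 hR hp hn hj hk v s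
  have b2 : ∀ A : Finset (V n), Perc R A →
      (v0 ∈ A ∨ ∃ j ∈ range k, E v0 j 1 A) ∨ ∃ v ∈ univ, E v k n A := by
    intro A hA
    by_contra hc
    push Not at hc
    obtain ⟨⟨c1, c2⟩, c3⟩ := hc
    have d1 : ∀ j, j ≤ k → v0 ∉ BB (R - ε * R / 4) (ε * R / (4 * k)) A j := by
      intro j
      induction j with
      | zero => exact fun _ => c1
      | succ j ih =>
        intro hj hv
        exact c2 j (mem_range.2 (by omega)) (wit2 (by linarith) h A v0 (by omega)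
          (by simpa using one_le_pow₀ hσ) hv (ih (by omega)))
    refine d1 k le_rfl ?_
    rw [hA _ (BB_sub _ _ A k) fun v hv => ?_]
    · exact mem_univ _
    by_contra hv2
    refine c3 v (mem_univ _) (wit2 (by linarith) h A v le_rfl hs
      ((BB_succ _ _ A k v).2 (Or.inr ?_)) hv2)
    refine le_trans (le_of_eq ?_) hv
    field_simp; ring
  have b3 := (Pr_union h0 h1' (range k) fun j A => E v0 j 1 A).trans
    (Finset.sum_le_card_nsmul _ _ q fun j hj => by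
      simpa using b1 v0 j 1 (mem_range.1 hj).le)
  have b4 := (Pr_union h0 h1' univ fun v A => E v k n A).trans
    (Finset.sum_le_card_nsmul _ _ (q ^ n) fun v _ => b1 v k n le_rfl)
  rw [nsmul_eq_mul, card_range] at b3
  rw [nsmul_eq_mul, card_univ, Fintype.card_fun, Fintype.card_bool, Fintype.card_fin] at b4
  push_cast at b4
  rw [← mul_pow] at b4
  have b5 : (2 * q) ^ n ≤ 2 * q := pow_le_of_le_one (by linarith) (by linarith) (by omega)
  have b6 := (Pr_mono h0 h1' b2).trans (Pr_or h0 h1' _ _)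
  have b7 := Pr_or h0 h1' (fun A : Finset (V n) => v0 ∈ A) fun A => ∃ j ∈ range k, E v0 j 1 A
  have b8 := Pr_mem p v0
  linarith

/-- The critical probability. -/
noncomputable def pcr (n : ℕ) (R : ℝ) : ℝ :=
  sInf {p : ℝ | 0 ≤ p ∧ p ≤ 1 ∧ (1 / 2 : ℝ) ≤ Pr p (Perc (n := n) R)}

/-- The two bounds, with explicit assumptions on `n`. -/
lemma bounds {R ε : ℝ} (hε : 0 < ε) (hε1 : ε ≤ 1) (hn : 4 / ε ≤ n) (hM : 1 ≤ Real.log (Real.log n))
    (hL : 8 / ε ≤ Real.log n) (hR2 : R ≤ n / 2)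
    (hR : 400 / ε ^ 2 ≤ R * Real.log (Real.log n) ^ 2 / Real.log n ^ 3) :
    0 < R / n ∧ (1 - ε) * (R / n) ≤ pcr n R ∧ pcr n R ≤ (1 + ε) * (R / n) := by
  set L := Real.log n with hLdef
  set M := Real.log L with hMdef
  have hn4 : (4 : ℝ) ≤ n := le_trans (by rw [le_div_iff₀ hε]; linarith) hn
  have n0 : (0 : ℝ) < n := by linarith
  have hn1 : 1 ≤ n := by
    have : (1 : ℝ) ≤ n := by linarith
    exact_mod_cast this
  have hL8 : (8 : ℝ) ≤ L := le_trans (by rw [le_div_iff₀ hε]; linarith) hL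
  have L0 : 0 < L := by linarith
  have M0 : 0 < M := by linarith
  have hML : M ≤ L := by
    have := Real.log_le_sub_one_of_pos L0
    linarith
  have hexpL : Real.exp L = n := Real.exp_log n0
  have hexpM : Real.exp M = L := Real.exp_log L0
  -- the ratio
  obtain ⟨x, hx⟩ : ∃ x, x = L / M := ⟨_, rfl⟩
  have hx1 : 1 ≤ x := by rw [hx, le_div_iff₀ M0]; linarith
  have hxM : x * M = L := by rw [hx]; field_simp
  have hRx : 400 / ε ^ 2 * (x ^ 2 * L) ≤ R := by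
    rw [le_div_iff₀ (by positivity)] at hR
    have e1 : x ^ 2 * L * M ^ 2 = L ^ 3 := by rw [← hxM]; ring
    have e2 : 400 / ε ^ 2 * (x ^ 2 * L) * M ^ 2 ≤ R * M ^ 2 := by
      calc _ = 400 / ε ^ 2 * (x ^ 2 * L * M ^ 2) := by ring
        _ = 400 / ε ^ 2 * L ^ 3 := by rw [e1]
        _ ≤ _ := hR
    exact le_of_mul_le_mul_right e2 (by positivity)
  have hx2L : 1 ≤ x ^ 2 * L := by nlinarith
  have hε2 : 0 < ε ^ 2 := by positivity
  have hR400 : 400 * (x ^ 2 * L) ≤ R * ε ^ 2 := by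
    rw [div_mul_eq_mul_div, div_le_iff₀ hε2] at hRx
    exact hRx
  have R0 : 0 < R := by nlinarith
  have hRε : R * ε ^ 2 ≤ ε * R := by nlinarith [mul_pos hε R0]
  obtain ⟨y, hy⟩ : ∃ y, y = R / n := ⟨_, rfl⟩
  have y0 : 0 < y := by rw [hy]; positivity
  have hyn : y * n = R := by rw [hy]; field_simp
  have y2 : y ≤ 1 / 2 := by rw [hy, div_le_iff₀ n0]; linarith
  rw [← hy]
  -- the upper bound
  have u1 : 1 / 2 ≤ Pr ((1 + ε) * y) (Perc (n := n) R) := by
    refine upper (by positivity) (by nlinarith) hε hε1 R0.le ?_ hn1 hR2 ?_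
    · rw [div_le_iff₀ hε] at hn
      have : 0 ≤ y * (n * ε - 4) := mul_nonneg y0.le (by linarith)
      have : 0 ≤ y * (1 - ε) := mul_nonneg y0.le (by linarith)
      rw [← hyn]; nlinarith
    · have h3 : 3 ≤ ε ^ 2 / 128 * R := by nlinarith
      have h4 : Real.exp (-(ε ^ 2 / 128 * R)) ≤ Real.exp (-3) := Real.exp_le_exp.2 (by linarith)
      have h5 : (8 : ℝ) ≤ Real.exp 3 := by
        have h6 : (2 : ℝ) ≤ Real.exp 1 := by
          have := Real.add_one_le_exp (1 : ℝ)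
          linarith
        have h7 : Real.exp 3 = Real.exp 1 ^ 3 := by rw [← Real.exp_nat_mul]; norm_num
        rw [h7]
        calc (8 : ℝ) = 2 ^ 3 := by norm_num
          _ ≤ Real.exp 1 ^ 3 := pow_le_pow_left₀ (by norm_num) h6 3
      refine h4.trans ?_
      rw [Real.exp_neg, inv_le_comm₀ (Real.exp_pos _) (by norm_num)]
      linarith
  have m1 : (1 + ε) * y ∈ {p : ℝ | 0 ≤ p ∧ p ≤ 1 ∧ (1 / 2 : ℝ) ≤ Pr p (Perc (n := n) R)} :=
    ⟨by positivity, by nlinarith, u1⟩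
  refine ⟨y0, le_csInf ⟨_, m1⟩ fun p hp => ?_, csInf_le ⟨0, fun p hp => hp.1⟩ m1⟩
  by_contra hlt
  rw [not_le] at hlt
  -- the number of steps
  obtain ⟨k, hk⟩ : ∃ k : ℕ, k = ⌈x⌉₊ := ⟨_, rfl⟩
  have hkx : x ≤ k := by rw [hk]; exact Nat.le_ceil x
  have hkx2 : (k : ℝ) ≤ 2 * x := by
    have := Nat.ceil_lt_add_one (by linarith : 0 ≤ x)
    rw [← hk] at this
    linarith
  have k1 : (1 : ℝ) ≤ k := hx1.trans hkx
  have hk0 : 1 ≤ k := by exact_mod_cast k1
  have hxL : x ≤ x ^ 2 * L := by nlinarith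
  refine absurd hp.2.2 (not_le.2 (lower' (σ := L) (δ := ε / 2) (k := k) hp.1 ?_ (by positivity) hε hε1
    R0.le ?_ hk0 hn1 ?_ (by linarith) ?_ ?_ ?_))
  · nlinarith
  · rw [← hyn]; nlinarith
  · nlinarith
  · have hk4 : (0 : ℝ) < 4 * k := by positivity
    have e1 : (L * (k + 1) + k) * (4 * k) ≤ ε * R := by
      have a1 : (k : ℝ) + 1 ≤ 3 * x := by linarith
      have a2 : L * (k + 1) + k ≤ 5 * x * L := by nlinarith
      calc (L * (k + 1) + k) * (4 * k) ≤ (5 * x * L) * (4 * (2 * x)) := by gcongr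
        _ = 40 * (x ^ 2 * L) := by ring
        _ ≤ ε * R := by nlinarith
    have e2 : L * (k + 1) + k ≤ ε * R / (4 * k) := by rw [le_div_iff₀ hk4]; exact e1
    linarith
  · have e1 : (n : ℝ) = Real.exp L := hexpL.symm
    have e2 : L ^ k = Real.exp (k * M) := by rw [Real.exp_nat_mul, hexpM]
    rw [e1, e2, Real.exp_le_exp]
    nlinarith
  · have hk1 : (0 : ℝ) < 16 * (k + 1) := by positivity
    have e1 : 2 * (k * L) ≤ ε ^ 2 / (16 * (k + 1)) * R := by
      rw [div_mul_eq_mul_div, le_div_iff₀ hk1]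
      have a1 : (k : ℝ) + 1 ≤ 3 * x := by linarith
      calc 2 * (k * L) * (16 * (k + 1)) ≤ 2 * (2 * x * L) * (16 * (3 * x)) := by gcongr
        _ = 192 * (x ^ 2 * L) := by ring
        _ ≤ ε ^ 2 * R := by nlinarith
    have e2 : (n : ℝ) ^ k = Real.exp (k * L) := by rw [Real.exp_nat_mul, hexpL]
    rw [e2, ← Real.exp_add]
    have e3 : Real.exp (k * L + -(ε ^ 2 / (16 * (k + 1)) * R)) ≤ Real.exp (-(k * L)) :=
      Real.exp_le_exp.2 (by linarith)
    refine e3.trans ?_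
    rw [Real.exp_neg, inv_le_comm₀ (Real.exp_pos _) (by positivity), inv_div]
    have e4 : (k : ℝ) * L ≤ Real.exp (k * L) := by
      have := Real.add_one_le_exp ((k : ℝ) * L)
      linarith
    refine le_trans ?_ e4
    rw [div_le_iff₀ (by positivity)]
    rw [div_le_iff₀ hε] at hL
    nlinarith

theorem general {R : ℕ → ℝ} (h1 : Tendsto (fun n : ℕ => R n * Real.log (Real.log n) ^ 2 / Real.log n ^ 3)
    atTop atTop) (h2 : ∀ᶠ n : ℕ in atTop, R n ≤ n / 2) :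
    Tendsto (fun n : ℕ => pcr n (R n) / (R n / n)) atTop (𝓝 1) := by
  rw [Metric.tendsto_nhds]
  intro e he
  obtain ⟨ε, hε, hε1, hεe⟩ : ∃ ε : ℝ, 0 < ε ∧ ε ≤ 1 ∧ ε < e :=
    ⟨min 1 (e / 2), by positivity, min_le_left _ _, (min_le_right _ _).trans_lt (by linarith)⟩
  have T0 : Tendsto (fun n : ℕ => (n : ℝ)) atTop atTop := tendsto_natCast_atTop_atTop
  have T1 : Tendsto (fun n : ℕ => Real.log n) atTop atTop := Real.tendsto_log_atTop.comp T0
  have T2 : Tendsto (fun n : ℕ => Real.log (Real.log n)) atTop atTop := Real.tendsto_log_atTop.comp T1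
  filter_upwards [T0.eventually_ge_atTop (4 / ε), T1.eventually_ge_atTop (8 / ε),
    T2.eventually_ge_atTop 1, h2, h1.eventually_ge_atTop (400 / ε ^ 2)] with n a1 a2 a3 a4 a5
  obtain ⟨y0, b1, b2⟩ := bounds hε hε1 a1 a3 a2 a4 a5
  rw [Real.dist_eq, abs_lt, lt_sub_iff_add_lt, sub_lt_iff_lt_add, lt_div_iff₀ y0, div_lt_iff₀ y0]
  constructor <;> nlinarith

end Pool.Agent.KS6_21.HB
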